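import Pool.Agent.Helper60.PT3.All

/-!
# `N = p + P_r` with a prime `p` in the Goldbach-Knjzek-Rivera range: exceptional sets for `r = 2, 3, 4`

For all `0 < α < β` and even `N` count the primes `p ∈ (α √N, β √N)` for which `N - p` is squarefree
with at most `r` prime factors, all of them large (`> N^(1/9)`, `N^(1/15)`, `N^(1/26)` for `r = 2, 3, 4`). This
number is at least `c 𝔖(N) √N / (log N)²`, the expected order of magnitude, for all even `N ≤ X` with at most
`O(X^(3/5))` exceptions for `r = 2`, `O(X^(23/100))` exceptions for `r = 3` and finitely many exceptions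
for `r = 4`. For `α = 1`, `β = 4` this is the range of the conjecture.

Proof idea. For sieve weights `ξ_d`, `d ≤ D`, which do not depend on `N`, the sum
`∑_p ∑_{d ∣ N-p} ξ_d` is written as `∑_{r ≤ D} g_r ∑_p c_r(N - p)` with Ramanujan sums. The part
`r ≤ N^(1/4-δ)` is evaluated for every `N` by the Bombieri-Vinogradov theorem. If the part `r > N^(1/4-δ)` is
large for all `N` in a set `E ⊆ [Y, 2Y]`, Cauchy's inequality with the additive large sieve over `p`
and a mean value over `E` (the dual large sieve for `|E| > √Y`, the divisor function of `N - N'` for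
`|E| < √Y`) gives `D ≥ (|E| √Y)^(1/2 - δ)`. So the level of distribution is `N^0.55` for `|E| = Y^0.6` and
`N^0.3649` for `|E| = Y^0.23`; Richert's weights then give `P₂` and `P₃`. For `r = 4` the level is `N^(1/4)`
for every `N`, and the primes `q > N^0.22` in Richert's sum are treated by a sieve of mixed dimension, in
which `p` is replaced by integers without small prime factors.
-/

set_option autoImplicit false

namespace Pool.Agent.Results.MP_b454d1_nt.AlmostPrimeComplement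

open Finset

/-- the singular series `∏_{p ∣ N, p > 2} (p - 1) / (p - 2)` -/
noncomputable def singularSeries (N : ℕ) : ℝ :=
  ∏ p ∈ N.primeFactors.filter (fun p => 2 < p), ((p : ℝ) - 1) / ((p : ℝ) - 2)

/-- `m` is squarefree, has at most `r` prime factors, and they are all larger than `y` -/
def IsAlmostPrime (r : ℕ) (y : ℝ) (m : ℕ) : Prop :=
  Squarefree m ∧ m.primeFactors.card ≤ r ∧ ∀ q : ℕ, q.Prime → q ∣ m → y < q

open Classical in
/-- the number of the primes `p ∈ (α √N, β √N)`, `p < N`, for which `N - p` is squarefree with at most `r`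
prime factors, all of them larger than `N^κ` -/
noncomputable def reps (r : ℕ) (κ α β : ℝ) (N : ℕ) : ℕ :=
  ((range N).filter (fun p : ℕ => p.Prime ∧ α * √N < p ∧ (p : ℝ) < β * √N ∧
    IsAlmostPrime r ((N : ℝ) ^ κ) (N - p))).card

/-- `κ_r`: `1/9` for `r = 2`, `1/15` for `r = 3`, `1/26` for `r ≥ 4` -/
noncomputable def sizeExponent (r : ℕ) : ℝ := if r = 2 then 1 / 9 else if r = 3 then 1 / 15 else 1 / 26

/-- `θ_r`: `3/5` for `r = 2`, `23/100` for `r = 3`, `0` for `r ≥ 4` -/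
noncomputable def excExponent (r : ℕ) : ℝ := if r = 2 then 3 / 5 else if r = 3 then 23 / 100 else 0

/-- the even positive `N ≤ X` with fewer than `c 𝔖(N) √N / (log N)²` representations -/
def exceptional (r : ℕ) (κ α β c : ℝ) (X : ℕ) : Set ℕ :=
  {N | 1 ≤ N ∧ N ≤ X ∧ Even N ∧
    (reps r κ α β N : ℝ) < c * singularSeries N * √N / Real.log N ^ 2}

theorem finite_exceptional (r : ℕ) (κ α β c : ℝ) (X : ℕ) : (exceptional r κ α β c X).Finite :=
  (Set.finite_Icc 1 X).subset fun _ h => ⟨h.1, h.2.1⟩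

theorem SS_nonneg (N : ℕ) : 0 ≤ singularSeries N := by
  unfold singularSeries
  refine prod_nonneg fun p hp => ?_
  have h3 : (2 : ℝ) < p := by exact_mod_cast (mem_filter.1 hp).2
  exact div_nonneg (by linarith) (by linarith)

theorem exceptional_mono (r : ℕ) (κ α β : ℝ) {c c' : ℝ} (h : c ≤ c') (X : ℕ) :
    exceptional r κ α β c X ⊆ exceptional r κ α β c' X := by
  rintro N ⟨h1, h2, h3, h4⟩
  refine ⟨h1, h2, h3, h4.trans_le ?_⟩
  have h5 := SS_nonneg N
  have h6 : 0 ≤ √(N : ℝ) := Real.sqrt_nonneg _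
  apply div_le_div_of_nonneg_right _ (sq_nonneg _)
  exact mul_le_mul_of_nonneg_right (mul_le_mul_of_nonneg_right h h5) h6

open Classical in
theorem eq_PT (r : ℕ) (α β c : ℝ) (X : ℕ) :
    exceptional r (1 / 9) α β c X = (Pool.Agent.Helper60.PT.Bad r α β c X : Set ℕ) := by
  have h3 : ∀ N : ℕ, reps r (1 / 9) α β N = (Pool.Agent.Helper60.PT.Good r α β N).card := by
    intro N
    unfold reps
    refine congrArg Finset.card ?_
    unfold Pool.Agent.Helper60.PT.Good
    ext p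
    rw [mem_filter, mem_filter]
    exact Iff.rfl
  ext N
  unfold exceptional Pool.Agent.Helper60.PT.Bad
  rw [Set.mem_ofPred_eq, mem_coe, mem_filter, mem_Icc, h3]
  constructor
  · rintro ⟨h1, h2, h4, h5⟩
    exact ⟨⟨h1, h2⟩, h4, h5⟩
  · rintro ⟨⟨h1, h2⟩, h4, h5⟩
    exact ⟨h1, h2, h4, h5⟩

open Classical in
theorem eq_PT3 (r : ℕ) (κ α β c : ℝ) (X : ℕ) :
    exceptional r κ α β c X = (Pool.Agent.Helper60.PT3.Bad r κ α β c X : Set ℕ) := by
  have h3 : ∀ N : ℕ, reps r κ α β N = (Pool.Agent.Helper60.PT3.Good r κ α β N).card := by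
    intro N
    unfold reps
    refine congrArg Finset.card ?_
    unfold Pool.Agent.Helper60.PT3.Good
    ext p
    rw [mem_filter, mem_filter]
    exact Iff.rfl
  ext N
  unfold exceptional Pool.Agent.Helper60.PT3.Bad
  rw [Set.mem_ofPred_eq, mem_coe, mem_filter, mem_Icc, h3]
  constructor
  · rintro ⟨h1, h2, h4, h5⟩
    exact ⟨⟨h1, h2⟩, h4, h5⟩
  · rintro ⟨⟨h1, h2⟩, h4, h5⟩
    exact ⟨h1, h2, h4, h5⟩

/-- `r = 4`: all exceptions are below `N₀` -/
theorem four {α β : ℝ} (hα : 0 < α) (hβ : α < β) : ∃ c : ℝ, 0 < c ∧ ∃ N₀ : ℕ, ∀ X : ℕ,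
    exceptional 4 (1 / 26) α β c X ⊆ Set.Icc 1 N₀ := by
  classical
  obtain ⟨c, hc, N₀, h⟩ := Pool.Agent.Helper60.GP.pE9 α β hα hβ
  refine ⟨c, hc, N₀, fun X N hN => ?_⟩
  obtain ⟨h1, h2, h3, h4⟩ := hN
  refine ⟨h1, ?_⟩
  by_contra h5
  have h6 := h N (by omega) h3
  have h7 : reps 4 (1 / 26) α β N = (Pool.Agent.Helper60.GP.Good α β N).card := by
    unfold reps
    refine congrArg Finset.card ?_
    unfold Pool.Agent.Helper60.GP.Good
    ext p
    rw [mem_filter, mem_filter]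
    exact Iff.rfl
  rw [h7] at h4
  exact absurd h6 (not_le.2 h4)

/-- from large `X` to all `X` -/
theorem all_X (s : ℕ → Set ℕ) (hs : ∀ X, s X ⊆ Set.Icc 1 X) (θ : ℝ) (hθ : 0 ≤ θ)
    (h : ∃ X₀ : ℕ, ∀ X : ℕ, X₀ ≤ X → ((s X).ncard : ℝ) ≤ (X : ℝ) ^ θ) :
    ∃ C : ℝ, 0 < C ∧ ∀ X : ℕ, 1 ≤ X → ((s X).ncard : ℝ) ≤ C * (X : ℝ) ^ θ := by
  obtain ⟨X₀, hX⟩ := h
  refine ⟨X₀ + 1, by positivity, fun X hX1 => ?_⟩
  have h1 : (1 : ℝ) ≤ X := by exact_mod_cast hX1
  have h2 : 1 ≤ (X : ℝ) ^ θ := Real.one_le_rpow h1 hθ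
  have h0 : (0 : ℝ) ≤ X₀ := Nat.cast_nonneg _
  rcases le_total X₀ X with h3 | h3
  · have := hX X h3
    nlinarith
  · have h4 : (s X).ncard ≤ X := by
      have := Set.ncard_le_ncard (hs X) (Set.finite_Icc 1 X)
      rwa [← Finset.coe_Icc, Set.ncard_coe_finset, Nat.card_Icc, Nat.add_sub_cancel] at this
    have h5 : ((s X).ncard : ℝ) ≤ X := by exact_mod_cast h4
    have h6 : (X : ℝ) ≤ X₀ := by exact_mod_cast h3
    nlinarith

theorem mono_card (r : ℕ) (κ α β : ℝ) {c c' : ℝ} (h : c ≤ c') (X : ℕ) :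
    ((exceptional r κ α β c X).ncard : ℝ) ≤ (exceptional r κ α β c' X).ncard := by
  exact_mod_cast Set.ncard_le_ncard (exceptional_mono r κ α β h X) (finite_exceptional r κ α β c' X)

theorem mono_r {r r' : ℕ} (κ α β c : ℝ) (h : r ≤ r') (X : ℕ) :
    exceptional r' κ α β c X ⊆ exceptional r κ α β c X := by
  classical
  rintro N ⟨h1, h2, h3, h4⟩
  refine ⟨h1, h2, h3, lt_of_le_of_lt ?_ h4⟩
  unfold reps
  exact_mod_cast Finset.card_le_card fun p hp => by
    rw [mem_filter] at hp ⊢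
    obtain ⟨k1, k2, k3, k4, k5⟩ := hp
    exact ⟨k1, k2, k3, k4, k5.1, k5.2.1.trans h, k5.2.2⟩

/-- For all `0 < α < β` there are `c > 0` and `C` such that for all `r ≥ 2` and `X ≥ 1` all even `N ≤ X` with at
most `C X^(θ_r)` exceptions have at least `c 𝔖(N) √N / (log N)²` primes `p ∈ (α √N, β √N)` for which `N - p` is
squarefree with at most `r` prime factors, all larger than `N^(κ_r)`; here `θ_2 = 3/5`, `θ_3 = 23/100` and
`θ_r = 0` (finitely many exceptions) for `r ≥ 4`, and `κ_2 = 1/9`, `κ_3 = 1/15`, `κ_r = 1/26` for `r ≥ 4`. -/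
theorem result : ∀ α β : ℝ, 0 < α → α < β → ∃ c C : ℝ, 0 < c ∧ ∀ r X : ℕ, 2 ≤ r → 1 ≤ X →
    ((exceptional r (sizeExponent r) α β c X).ncard : ℝ) ≤ C * (X : ℝ) ^ excExponent r := by
  intro α β hα hβ
  obtain ⟨c₂, hc₂, X₂, h₂⟩ := (Pool.Agent.Helper60.PT.qMT α β hα hβ).1
  obtain ⟨c₃, hc₃, X₃, h₃⟩ := Pool.Agent.Helper60.PT3.rMT α β hα hβ
  obtain ⟨c₄, hc₄, N₀, h₄⟩ := four hα hβ
  have k₂ := all_X (fun X => exceptional 2 (1 / 9) α β c₂ X) (fun X N h => ⟨h.1, h.2.1⟩)
    ((3 : ℝ) / 5) (by norm_num) ⟨X₂, fun X hX => by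
      simp only [eq_PT, Set.ncard_coe_finset]
      exact h₂ X hX⟩
  have k₃ := all_X (fun X => exceptional 3 (1 / 15) α β c₃ X) (fun X N h => ⟨h.1, h.2.1⟩)
    ((23 : ℝ) / 100) (by norm_num) ⟨X₃, fun X hX => by
      simp only [eq_PT3, Set.ncard_coe_finset]
      exact h₃ X hX⟩
  obtain ⟨C₂, hC₂, k₂⟩ := k₂
  obtain ⟨C₃, hC₃, k₃⟩ := k₃
  set c : ℝ := min c₂ (min c₃ c₄) with hc
  have e2 : c ≤ c₂ := min_le_left _ _
  have e3 : c ≤ c₃ := (min_le_right _ _).trans (min_le_left _ _)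
  have e4 : c ≤ c₄ := (min_le_right _ _).trans (min_le_right _ _)
  have hN₀ : (0 : ℝ) ≤ N₀ := Nat.cast_nonneg _
  refine ⟨c, C₂ + C₃ + N₀, lt_min hc₂ (lt_min hc₃ hc₄), fun r X hr hX => ?_⟩
  by_cases hr2 : r = 2
  · subst hr2
    have s1 : sizeExponent 2 = 1 / 9 := by simp [sizeExponent]
    have s2 : excExponent 2 = 3 / 5 := by simp [excExponent]
    rw [s1, s2]
    refine (mono_card 2 _ α β e2 X).trans ((k₂ X hX).trans ?_)
    exact mul_le_mul_of_nonneg_right (by linarith) (by positivity)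
  by_cases hr3 : r = 3
  · subst hr3
    have s1 : sizeExponent 3 = 1 / 15 := by simp [sizeExponent]
    have s2 : excExponent 3 = 23 / 100 := by simp [excExponent]
    rw [s1, s2]
    refine (mono_card 3 _ α β e3 X).trans ((k₃ X hX).trans ?_)
    exact mul_le_mul_of_nonneg_right (by linarith) (by positivity)
  · have s1 : sizeExponent r = 1 / 26 := by simp [sizeExponent, hr2, hr3]
    have s2 : excExponent r = 0 := by simp [excExponent, hr2, hr3]
    rw [s1, s2, Real.rpow_zero, mul_one]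
    have h4r : 4 ≤ r := by omega
    have h5 := Set.ncard_le_ncard
      (((mono_r (1 / 26) α β c h4r X).trans (exceptional_mono 4 (1 / 26) α β e4 X)).trans (h₄ X))
      (Set.finite_Icc 1 N₀)
    rw [← Finset.coe_Icc 1 N₀, Set.ncard_coe_finset, Nat.card_Icc, Nat.add_sub_cancel] at h5
    have h6 : ((exceptional r (1 / 26) α β c X).ncard : ℝ) ≤ N₀ := by exact_mod_cast h5
    linarith

end Pool.Agent.Results.MP_b454d1_nt.AlmostPrimeComplement
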