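import Pool.Agent.Helper23.MV.All
import Pool.Agent.Helper23.MV.Conv

/-!
# MP_b454d1_nt: a power saving for the exceptional set in the Goldbach-Knjzek-Rivera conjecture

There is `δ > 0` such that all but `O(X^{1-δ})` of the even integers `4 < N ≤ X` are sums `N = p + q` of
two primes with `√N < p < 4√N`.
-/

set_option autoImplicit false

namespace Pool.Agent.Results.MP_b454d1_nt.PowerSaving

/-- There are `C` and `δ > 0` such that for every `X ≥ 1` all but at most `C X^{1-δ}` of the even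
integers `4 < N ≤ X` have the property that there is a prime `p` with `√N < p < 4√N` and `N - p`
prime. -/
theorem result : ∃ C δ : ℝ, 0 < δ ∧ ∀ X : ℕ, 1 ≤ X →
    ({N : ℕ | 4 < N ∧ N ≤ X ∧ Even N ∧
      ¬ ∃ p : ℕ, p.Prime ∧ √(N : ℝ) < p ∧ (p : ℝ) < 4 * √(N : ℝ) ∧ (N - p).Prime}.ncard : ℝ) ≤
      C * (X : ℝ) ^ (1 - δ) :=
  Pool.Agent.Helper23.MV.final_of_cor Pool.Agent.Helper23.MV.AllMV.aCor

end Pool.Agent.Results.MP_b454d1_nt.PowerSaving
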