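import Pool.Agent.Helper63.GW.All

/-!
# MP_b454d1_nt: the Goldbach-Knjzek-Rivera conjecture for almost all even integers of a short interval

Let `ε > 0` and `X^(4/5 + ε) ≤ H ≤ X`. For every `A`, all but `O_{A,ε}(H / (log X)^A)` of the even integers
`N` with `X < N ≤ X + H` are sums `N = p + q` of two primes with `√N < p < 4√N`. For the same `N` the number of
representations `N = p + q` with `p ≤ y`, weighted by `log p log q`, equals `𝔖(N) y + O(√N / (log N)^A)` uniformly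
for `0 ≤ y ≤ K √N`, where `𝔖(N)` is the singular series of Hardy and Littlewood.
-/

set_option autoImplicit false

namespace Pool.Agent.Results.MP_b454d1_nt.ShortIntervals

open Classical in
/-- the weighted number of representations: the sum of `log p * log (N - p)` over the primes
`p ≤ y`, `p < N`, such that `N - p` is a prime -/
noncomputable def repSum (N : ℕ) (y : ℝ) : ℝ :=
  ∑ p ∈ (Finset.Icc 1 ⌊y⌋₊).filter (fun p => p.Prime ∧ p < N ∧ (N - p).Prime),
    Real.log p * Real.log ((N - p : ℕ) : ℝ)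

/-- the singular series `2 ∏_{p > 2} (1 - 1/(p-1)²) ∏_{p ∣ N, p > 2} (p-1)/(p-2)` -/
noncomputable def singSeries (N : ℕ) : ℝ :=
  2 * (∏' p : {p : ℕ // p.Prime ∧ 2 < p}, (1 - 1 / ((p : ℝ) - 1) ^ 2)) *
    ∏ p ∈ N.primeFactors.filter (fun p => 2 < p), (((p : ℝ) - 1) / ((p : ℝ) - 2))

/-- For all `A`, `K` and `ε > 0` there is `C` such that for all `X ≥ 2` and `X^(4/5 + ε) ≤ H ≤ X` all but at
most `C H / (log X)^A` of the even integers `X < N ≤ X + H` have both properties: there is a prime `p` with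
`√N < p < 4√N` and `N - p` prime, and `|repSum N y - singSeries N * y| ≤ √N / (log N)^A` for all
`0 ≤ y ≤ K √N`. -/
theorem result : ∀ (A K : ℕ) (ε : ℝ), 0 < ε → ∃ C : ℝ, ∀ X H : ℕ, 2 ≤ X →
    (X : ℝ) ^ (4 / 5 + ε : ℝ) ≤ H → H ≤ X →
    ({N : ℕ | X < N ∧ N ≤ X + H ∧ Even N ∧
      ¬ ((∃ p : ℕ, p.Prime ∧ √(N : ℝ) < p ∧ (p : ℝ) < 4 * √(N : ℝ) ∧ (N - p).Prime) ∧
        ∀ y : ℝ, 0 ≤ y → y ≤ K * √(N : ℝ) →
          |repSum N y - singSeries N * y| ≤ √(N : ℝ) / Real.log N ^ A)}.ncard : ℝ) ≤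
      C * H / Real.log X ^ A :=
  Pool.Agent.Helper63.GW.AllGW.final

end Pool.Agent.Results.MP_b454d1_nt.ShortIntervals
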