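import Pool.Agent.Helper58.SU.All

/-!
# MP_b454d1_nt: the Goldbach-Knjzek-Rivera conjecture with the small prime in a short window

For all fixed `c > 0`, `κ > 2/5` and `A`, all but `O(X / (log X)^A)` of the even integers
`4 < N ≤ X` are sums `N = p + q` of two primes with `c √N < p ≤ c √N + N ^ κ`, and the number of these
representations, weighted by `log p log q`, is `𝔖(N) N ^ κ + O(N ^ κ / (log N) ^ A)`.
-/

set_option autoImplicit false

namespace Pool.Agent.Results.MP_b454d1_nt.ShortWindows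

open Classical in
/-- the weighted number of representations in a window: the sum of `log p * log (N - p)` over the
primes `p < N` with `⌊a⌋ < p ≤ ⌊b⌋` such that `N - p` is a prime -/
noncomputable def repSum (N : ℕ) (a b : ℝ) : ℝ :=
  ∑ p ∈ (Finset.Ioc ⌊a⌋₊ ⌊b⌋₊).filter (fun p => p.Prime ∧ p < N ∧ (N - p).Prime),
    Real.log p * Real.log ((N - p : ℕ) : ℝ)

/-- the singular series `2 ∏_{p > 2} (1 - 1/(p-1)²) ∏_{p ∣ N, p > 2} (p-1)/(p-2)` -/
noncomputable def singSeries (N : ℕ) : ℝ :=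
  2 * (∏' p : {p : ℕ // p.Prime ∧ 2 < p}, (1 - 1 / ((p : ℝ) - 1) ^ 2)) *
    ∏ p ∈ N.primeFactors.filter (fun p => 2 < p), (((p : ℝ) - 1) / ((p : ℝ) - 2))

/-- For all `c > 0`, `2/5 < κ < 1/2` and `A` there is `C` such that for every `X ≥ 2` all but at most
`C X / (log X)^A` of the even integers `4 < N ≤ X` have both properties: there is a prime `p` with
`c√N < p ≤ c√N + N^κ` and `N - p` prime, and
`|repSum N (c√N) (c√N + N^κ) - singSeries N * N^κ| ≤ N^κ / (log N)^A`. -/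
theorem result : ∀ (c κ : ℝ) (A : ℕ), 0 < c → 2 / 5 < κ → κ < 1 / 2 → ∃ C : ℝ,
    ∀ X : ℕ, 2 ≤ X →
    ({N : ℕ | 4 < N ∧ N ≤ X ∧ Even N ∧
      ¬ ((∃ p : ℕ, p.Prime ∧ c * √(N : ℝ) < p ∧ (p : ℝ) ≤ c * √(N : ℝ) + (N : ℝ) ^ κ ∧
          (N - p).Prime) ∧
        |repSum N (c * √(N : ℝ)) (c * √(N : ℝ) + (N : ℝ) ^ κ) - singSeries N * (N : ℝ) ^ κ| ≤
          (N : ℝ) ^ κ / Real.log N ^ A)}.ncard : ℝ) ≤ C * X / Real.log X ^ A :=
  Pool.Agent.Helper58.SU.finU

end Pool.Agent.Results.MP_b454d1_nt.ShortWindows
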